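import Mathlib

/-!
# Invariants of finitely generated `FI_d`-modules need not be quasi-polynomial

For every field `k` of characteristic `p > 0` and every `d ≥ 2` we construct a finitely generated
`FI_d`-module `V` over `k` such that `dim H^0(S_n, V_n)` is the number of `a ≤ n` for which `p`
divides the binomial coefficient `n choose a`.  By the congruences of Lucas this function of `n`
does not agree, for `n` large, with any quasi-polynomial.
-/

set_option autoImplicit false

open CategoryTheory

namespace Pool.Agent.Results.MP_93a4b1_al.NotQuasiPolynomial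

/-- The objects of the category `FI_d`: finite sets. -/
structure FI (d : ℕ) : Type 1 where
  /-- the underlying set -/
  carrier : Type
  [fin : Finite carrier]

/-- A morphism `A ⟶ B` in `FI_d`: an injection `g : A → B` and an arbitrary function `h` from the
complement of the image of `g` to the set of `d` colours. -/
structure Mor {d : ℕ} (A B : FI d) : Type where
  /-- the injection -/
  g : A.carrier → B.carrier
  inj : Function.Injective g
  /-- the colours of the points outside the image -/
  h : {b : B.carrier // b ∉ Set.range g} → Fin d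

attribute [instance] FI.fin

theorem Mor.ext' {d : ℕ} {A B : FI d} {f f' : Mor A B} (hg : ∀ a, f.g a = f'.g a)
    (hh : ∀ (b : B.carrier) (hb : b ∉ Set.range f.g) (hb' : b ∉ Set.range f'.g),
      f.h ⟨b, hb⟩ = f'.h ⟨b, hb'⟩) : f = f' := by
  obtain ⟨g, i, h⟩ := f
  obtain ⟨g', i', h'⟩ := f'
  obtain rfl : g = g' := funext hg
  simp only [Mor.mk.injEq, heq_eq_eq, true_and]
  funext ⟨b, hb⟩
  exact hh b hb hb

/-- The identity. -/
def Mor.id {d : ℕ} (A : FI d) : Mor A A where
  g := fun a => a
  inj := fun _ _ h => h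
  h := fun b => absurd ⟨b.1, rfl⟩ b.2

open Classical in
/-- The composition: the injections are composed, each new point keeps the colour it was given. -/
noncomputable def Mor.comp {d : ℕ} {A B C : FI d} (f : Mor A B) (f' : Mor B C) : Mor A C where
  g := fun a => f'.g (f.g a)
  inj := fun _ _ h => f.inj (f'.inj h)
  h := fun c =>
    if hc : c.1 ∈ Set.range f'.g then
      f.h ⟨hc.choose, fun ⟨a, ha⟩ => c.2 ⟨a, by
        change f'.g (f.g a) = c.1
        rw [ha]; exact hc.choose_spec⟩⟩
    else f'.h ⟨c.1, hc⟩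

theorem Mor.comp_h_range {d : ℕ} {A B C : FI d} (f : Mor A B) (f' : Mor B C) (b : B.carrier)
    (hb : b ∉ Set.range f.g) (hc : f'.g b ∉ Set.range (f.comp f').g) :
    (f.comp f').h ⟨f'.g b, hc⟩ = f.h ⟨b, hb⟩ := by
  have hr : f'.g b ∈ Set.range f'.g := ⟨b, rfl⟩
  have : hr.choose = b := f'.inj hr.choose_spec
  simp only [Mor.comp, dif_pos hr]
  congr 1
  exact Subtype.ext this

theorem Mor.comp_h_not {d : ℕ} {A B C : FI d} (f : Mor A B) (f' : Mor B C) (c : C.carrier)
    (hb : c ∉ Set.range f'.g) (hc : c ∉ Set.range (f.comp f').g) :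
    (f.comp f').h ⟨c, hc⟩ = f'.h ⟨c, hb⟩ := by
  simp only [Mor.comp, dif_neg hb]

/-- The category `FI_d`. -/
noncomputable instance instCategoryFI (d : ℕ) : Category.{0} (FI d) where
  Hom A B := Mor A B
  id A := Mor.id A
  comp f f' := Mor.comp f f'
  id_comp := by
    intro A B f
    refine Mor.ext' (fun a => rfl) ?_
    intro b hb hb'
    exact Mor.comp_h_not _ _ _ hb' _
  comp_id := by
    intro A B f
    refine Mor.ext' (fun a => rfl) ?_
    intro b hb hb'
    exact Mor.comp_h_range f (Mor.id B) b hb' hb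
  assoc := by
    intro A B C D f f' f''
    refine Mor.ext' (fun a => rfl) ?_
    intro x hx hx'
    by_cases h1 : x ∈ Set.range f''.g
    · obtain ⟨c, rfl⟩ := h1
      have hc : c ∉ Set.range (f.comp f').g := by
        rintro ⟨a, rfl⟩
        exact hx ⟨a, rfl⟩
      rw [Mor.comp_h_range (f.comp f') f'' c hc]
      by_cases h2 : c ∈ Set.range f'.g
      · obtain ⟨b, rfl⟩ := h2
        have hb : b ∉ Set.range f.g := by
          rintro ⟨a, rfl⟩
          exact hx ⟨a, rfl⟩
        rw [Mor.comp_h_range f f' b hb]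
        exact (Mor.comp_h_range f (f'.comp f'') b hb hx').symm
      · rw [Mor.comp_h_not f f' c h2]
        have h3 : f''.g c ∉ Set.range (f'.comp f'').g := by
          rintro ⟨b, hb⟩
          exact h2 ⟨b, f''.inj hb⟩
        rw [Mor.comp_h_not f (f'.comp f'') _ h3]
        exact (Mor.comp_h_range f' f'' c h2 h3).symm
    · rw [Mor.comp_h_not (f.comp f') f'' x h1]
      have h3 : x ∉ Set.range (f'.comp f'').g := by
        rintro ⟨b, hb⟩
        exact h1 ⟨_, hb⟩
      rw [Mor.comp_h_not f (f'.comp f'') _ h3]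
      exact (Mor.comp_h_not f' f'' x h1 h3).symm

/-- The object `[n] = {1, ..., n}` of `FI_d`. -/
abbrev std (d n : ℕ) : FI d := ⟨Fin n⟩

/-- The automorphism `(σ, ∅)` of `[n]`. -/
def autMor {d n : ℕ} (σ : Equiv.Perm (Fin n)) : std d n ⟶ std d n where
  g := σ
  inj := σ.injective
  h := fun b => absurd (σ.surjective b.1) b.2

theorem autMor_one {d n : ℕ} : (autMor 1 : std d n ⟶ std d n) = 𝟙 _ :=
  Mor.ext' (fun _ => rfl) fun b hb _ => absurd ⟨b, rfl⟩ hb

theorem autMor_mul {d n : ℕ} (σ τ : Equiv.Perm (Fin n)) :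
    (autMor (σ * τ) : std d n ⟶ std d n) = autMor τ ≫ autMor σ :=
  Mor.ext' (fun _ => rfl) fun b hb _ => absurd ((σ * τ).surjective b) hb

/-- The representation of the symmetric group `S_n` on `V_n`. -/
def repOf {k : Type} [Field k] {d : ℕ} (V : FI d ⥤ ModuleCat.{0} k) (n : ℕ) :
    Representation k (Equiv.Perm (Fin n)) (V.obj (std d n)) where
  toFun σ := (V.map (autMor σ)).hom
  map_one' := by rw [autMor_one, V.map_id]; rfl
  map_mul' σ τ := by rw [autMor_mul, V.map_comp]; rfl

/-- `dim_k H^t(S_n, V_n)` -/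
noncomputable def dimCoh {k : Type} [Field k] {d : ℕ} (V : FI d ⥤ ModuleCat.{0} k) (t n : ℕ) : ℕ :=
  Module.finrank k (groupCohomology (Rep.of (repOf V n)) t)

/-- `V` is finitely generated: there are finitely many elements `v i` of `V_(n i)` such that no
proper subfunctor `W` contains all of them. -/
def IsFinGen {k : Type} [Field k] {d : ℕ} (V : FI d ⥤ ModuleCat.{0} k) : Prop :=
  ∃ (r : ℕ) (n : Fin r → ℕ) (v : ∀ i, V.obj (std d (n i))),
    ∀ W : ∀ S : FI d, Submodule k (V.obj S),
      (∀ (S T : FI d) (f : S ⟶ T), ∀ x ∈ W S, (V.map f).hom x ∈ W T) →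
      (∀ i, v i ∈ W (std d (n i))) → ∀ S, W S = ⊤

/-- `f` agrees for all large `n` with a quasi-polynomial: there are `N ≥ 1` and polynomials
`q 0, ..., q (N - 1)` with `f n = q (n mod N) (n)` for all large `n`. -/
def EventuallyQuasiPolynomial (f : ℕ → ℕ) : Prop :=
  ∃ (N : ℕ) (q : ℕ → Polynomial ℚ) (n₀ : ℕ), 1 ≤ N ∧
    ∀ n, n₀ ≤ n → (f n : ℚ) = (q (n % N)).eval (n : ℚ)

/-! ### The module -/

section Module

open Classical

/-- The colours `0` and `i > 0` are replaced by `false` and `true`. -/
def bit {d : ℕ} (i : Fin d) : Bool := decide (i.val ≠ 0)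

/-- Extension of a colouring along a morphism. -/
noncomputable def push {d : ℕ} {A B : FI d} (f : A ⟶ B) (c : A.carrier → Bool) :
    B.carrier → Bool := fun b =>
  if hb : b ∈ Set.range (Mor.g f) then c hb.choose else bit (Mor.h f ⟨b, hb⟩)

theorem push_range {d : ℕ} {A B : FI d} (f : A ⟶ B) (c : A.carrier → Bool) (a : A.carrier) :
    push f c (Mor.g f a) = c a := by
  have hr : Mor.g f a ∈ Set.range (Mor.g f) := ⟨a, rfl⟩
  have : hr.choose = a := Mor.inj f hr.choose_spec
  simp only [push, dif_pos hr]
  rw [this]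

theorem push_not {d : ℕ} {A B : FI d} (f : A ⟶ B) (c : A.carrier → Bool) (b : B.carrier)
    (hb : b ∉ Set.range (Mor.g f)) : push f c b = bit (Mor.h f ⟨b, hb⟩) := by
  simp only [push, dif_neg hb]

theorem push_id {d : ℕ} (A : FI d) : push (𝟙 A) = id := by
  funext c a
  exact push_range (𝟙 A) c a

theorem push_comp {d : ℕ} {A B C : FI d} (f : A ⟶ B) (f' : B ⟶ C) :
    push (f ≫ f') = push f' ∘ push f := by
  funext c x
  simp only [Function.comp]
  by_cases h1 : x ∈ Set.range (Mor.g f')
  · obtain ⟨b, rfl⟩ := h1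
    rw [push_range]
    by_cases h2 : b ∈ Set.range (Mor.g f)
    · obtain ⟨a, rfl⟩ := h2
      rw [push_range]
      exact push_range (f ≫ f') c a
    · have h3 : Mor.g f' b ∉ Set.range (Mor.g (f ≫ f')) := by
        rintro ⟨a, ha⟩
        exact h2 ⟨a, Mor.inj f' ha⟩
      rw [push_not _ _ _ h2, push_not _ _ _ h3]
      congr 1
      exact Mor.comp_h_range f f' b h2 h3
  · have h3 : x ∉ Set.range (Mor.g (f ≫ f')) := by
      rintro ⟨a, ha⟩
      exact h1 ⟨_, ha⟩
    rw [push_not _ _ _ h1, push_not _ _ _ h3]
    congr 1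
    exact Mor.comp_h_not f f' x h1 h3

/-- The number of points of colour `true`. -/
noncomputable def cnt {S : Type} (c : S → Bool) : ℕ := Nat.card {s // c s = true}

theorem cnt_push {d : ℕ} {A B : FI d} (f : A ⟶ B) : ∃ m : ℕ, ∀ c : A.carrier → Bool,
    cnt (push f c) = cnt c + m := by
  refine ⟨Nat.card {b : {b // b ∉ Set.range (Mor.g f)} // bit (Mor.h f b) = true}, fun c => ?_⟩
  unfold cnt
  rw [← Nat.card_sum]
  refine Nat.card_congr ?_
  refine Equiv.symm (Equiv.ofBijective (fun x => Sum.elim
    (fun a : {s // c s = true} => (⟨Mor.g f a.1, by rw [push_range]; exact a.2⟩ :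
      {s // push f c s = true}))
    (fun b => ⟨b.1.1, by rw [push_not _ _ _ b.1.2]; exact b.2⟩) x) ⟨?_, ?_⟩)
  · rintro (a | b) (a' | b') h
    · simp only [Sum.elim_inl, Subtype.mk.injEq] at h
      exact congrArg Sum.inl (Subtype.ext (Mor.inj f h))
    · simp only [Sum.elim_inl, Sum.elim_inr, Subtype.mk.injEq] at h
      exact absurd ⟨_, h⟩ b'.1.2
    · simp only [Sum.elim_inl, Sum.elim_inr, Subtype.mk.injEq] at h
      exact absurd ⟨_, h.symm⟩ b.1.2
    · simp only [Sum.elim_inr, Subtype.mk.injEq] at h
      exact congrArg Sum.inr (Subtype.ext (Subtype.ext h))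
  · rintro ⟨b, hb⟩
    by_cases h : b ∈ Set.range (Mor.g f)
    · obtain ⟨a, rfl⟩ := h
      refine ⟨Sum.inl ⟨a, ?_⟩, rfl⟩
      rw [push_range] at hb
      exact hb
    · refine ⟨Sum.inr ⟨⟨b, h⟩, ?_⟩, rfl⟩
      rw [push_not _ _ _ h] at hb
      exact hb

variable (k : Type) [Field k]

/-- `K_S`: the combinations of colourings of `S` with two colours such that for each `a` the sum of
the coefficients of the colourings with `a` points of colour `true` vanishes. -/
noncomputable def K (S : Type) : Submodule k ((S → Bool) →₀ k) :=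
  LinearMap.ker (Finsupp.lmapDomain k k (cnt (S := S)))

theorem push_mem {d : ℕ} {A B : FI d} (f : A ⟶ B) (x : (A.carrier → Bool) →₀ k)
    (hx : x ∈ K k A.carrier) : Finsupp.lmapDomain k k (push f) x ∈ K k B.carrier := by
  obtain ⟨m, hm⟩ := cnt_push f
  simp only [K, LinearMap.mem_ker, Finsupp.lmapDomain_apply] at hx ⊢
  rw [← Finsupp.mapDomain_comp]
  have : (cnt ∘ push f) = (fun a => a + m) ∘ (cnt (S := A.carrier)) := by
    funext c
    exact hm c
  rw [this, Finsupp.mapDomain_comp, hx, Finsupp.mapDomain_zero]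

/-- The `FI_d`-module `K`. -/
noncomputable def KF (d : ℕ) : FI d ⥤ ModuleCat.{0} k where
  obj S := ModuleCat.of k (K k S.carrier)
  map {A B} f := ModuleCat.ofHom ((Finsupp.lmapDomain k k (push f)).restrict (push_mem k f))
  map_id A := by
    refine ModuleCat.hom_ext (LinearMap.ext fun x => Subtype.ext ?_)
    simp only [ModuleCat.hom_ofHom, LinearMap.coe_restrict_apply, Finsupp.lmapDomain_apply]
    rw [push_id, Finsupp.mapDomain_id]
    rfl
  map_comp f f' := by
    refine ModuleCat.hom_ext (LinearMap.ext fun x => Subtype.ext ?_)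
    simp only [ModuleCat.hom_ofHom, LinearMap.coe_restrict_apply, Finsupp.lmapDomain_apply]
    rw [push_comp, Finsupp.mapDomain_comp]
    rfl

/-! ### Finite generation -/

theorem exists_perm {S : Type} [Finite S] (c c' : S → Bool) (h : cnt c = cnt c') :
    ∃ σ : Equiv.Perm S, c' = c ∘ σ := by
  have e : {s // c' s = true} ≃ {s // c s = true} := (Finite.equivFinOfCardEq rfl).trans
    ((finCongr h.symm).trans (Finite.equivFinOfCardEq rfl).symm)
  refine ⟨e.extendSubtype, ?_⟩
  funext s
  simp only [Function.comp]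
  by_cases hs : c' s = true
  · rw [hs]
    exact (e.extendSubtype_mem s hs).symm
  · have := e.extendSubtype_not_mem s hs
    rw [Bool.not_eq_true] at hs this
    rw [hs, this]

theorem finGen {d : ℕ} (hd : 2 ≤ d) : IsFinGen (KF k d) := by
  let cTF : Fin 2 → Bool := fun i => decide (i = 0)
  let cFT : Fin 2 → Bool := fun i => decide (i = 1)
  have hcc : cnt cTF = cnt cFT := by
    unfold cnt
    refine Nat.card_congr ⟨fun x => ⟨1, by simp [cFT]⟩, fun x => ⟨0, by simp [cTF]⟩, ?_, ?_⟩
    · rintro ⟨i, hi⟩
      simp only [cTF, decide_eq_true_eq] at hi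
      exact Subtype.ext hi.symm
    · rintro ⟨i, hi⟩
      simp only [cFT, decide_eq_true_eq] at hi
      exact Subtype.ext hi.symm
  have hδ : (Finsupp.single cTF (1 : k) - Finsupp.single cFT 1) ∈ K k (Fin 2) := by
    simp only [K, LinearMap.mem_ker, map_sub, Finsupp.lmapDomain_apply, Finsupp.mapDomain_single,
      hcc, sub_self]
  refine ⟨1, fun _ => 2, fun _ => ⟨_, hδ⟩, ?_⟩
  intro W hW hv S
  have hδW := hv 0
  let W' : Submodule k ((S.carrier → Bool) →₀ k) := (W S).map (K k S.carrier).subtype
  have hA : ∀ (c : S.carrier → Bool) (i j : S.carrier), c i = true → c j = false →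
      Finsupp.single c (1 : k) - Finsupp.single (c ∘ Equiv.swap i j) 1 ∈ W' := by
    intro c i j hi hj
    have hij : i ≠ j := by
      rintro rfl
      rw [hi] at hj
      exact absurd hj (by decide)
    let f : std d 2 ⟶ S :=
      { g := fun a => if a = 0 then i else j
        inj := by
          intro a b hab
          fin_cases a <;> fin_cases b <;> simp_all
        h := fun b => if c b.1 = true then ⟨1, by omega⟩ else ⟨0, by omega⟩ }
    have hf0 : Mor.g f 0 = i := by simp [f]
    have hf1 : Mor.g f 1 = j := by simp [f]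
    have hbit : ∀ b (hb : b ∉ Set.range (Mor.g f)), bit (Mor.h f ⟨b, hb⟩) = c b := by
      intro b hb
      by_cases hcb : c b = true
      · simp [f, bit, hcb]
      · rw [Bool.not_eq_true] at hcb
        simp [f, bit, hcb]
    have h1 : push f cTF = c := by
      funext b
      by_cases hb : b ∈ Set.range (Mor.g f)
      · obtain ⟨a, rfl⟩ := hb
        rw [push_range]
        fin_cases a
        · change cTF 0 = c (Mor.g f 0)
          rw [hf0, hi]
          simp [cTF]
        · change cTF 1 = c (Mor.g f 1)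
          rw [hf1, hj]
          simp [cTF]
      · rw [push_not _ _ _ hb, hbit]
    have h2 : push f cFT = c ∘ Equiv.swap i j := by
      funext b
      by_cases hb : b ∈ Set.range (Mor.g f)
      · obtain ⟨a, rfl⟩ := hb
        rw [push_range]
        fin_cases a
        · change cFT 0 = c (Equiv.swap i j (Mor.g f 0))
          rw [hf0, Equiv.swap_apply_left, hj]
          simp [cFT]
        · change cFT 1 = c (Equiv.swap i j (Mor.g f 1))
          rw [hf1, Equiv.swap_apply_right, hi]
          simp [cFT]
      · rw [push_not _ _ _ hb, hbit]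
        have hbi : b ≠ i := fun h => hb ⟨0, by rw [hf0, h]⟩
        have hbj : b ≠ j := fun h => hb ⟨1, by rw [hf1, h]⟩
        simp only [Function.comp, Equiv.swap_apply_of_ne_of_ne hbi hbj]
    refine ⟨_, hW _ _ f _ hδW, ?_⟩
    change Finsupp.mapDomain (push f) (Finsupp.single cTF (1 : k) - Finsupp.single cFT 1) = _
    rw [sub_eq_add_neg, Finsupp.mapDomain_add, ← Finsupp.single_neg, Finsupp.mapDomain_single,
      Finsupp.mapDomain_single, h1, h2, Finsupp.single_neg, ← sub_eq_add_neg]
  have hB : ∀ (c : S.carrier → Bool) (i j : S.carrier),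
      Finsupp.single c (1 : k) - Finsupp.single (c ∘ Equiv.swap i j) 1 ∈ W' := by
    intro c i j
    rcases hi : c i with _ | _ <;> rcases hj : c j with _ | _
    · have : c ∘ Equiv.swap i j = c := by
        funext s
        simp only [Function.comp, Equiv.swap_apply_def]
        split_ifs with h h'
        · rw [h, hi, hj]
        · rw [h', hi, hj]
        · rfl
      rw [this, sub_self]
      exact W'.zero_mem
    · rw [← neg_mem_iff, neg_sub]
      have h := hA (c ∘ Equiv.swap i j) i j (by simp [hj]) (by simp [hi])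
      rwa [Function.comp_assoc, ← Equiv.coe_trans, Equiv.swap_swap, Equiv.coe_refl,
        Function.comp_id] at h
    · exact hA c i j hi hj
    · have : c ∘ Equiv.swap i j = c := by
        funext s
        simp only [Function.comp, Equiv.swap_apply_def]
        split_ifs with h h'
        · rw [h, hi, hj]
        · rw [h', hi, hj]
        · rfl
      rw [this, sub_self]
      exact W'.zero_mem
  have hC : ∀ (σ : Equiv.Perm S.carrier) (c : S.carrier → Bool),
      Finsupp.single c (1 : k) - Finsupp.single (c ∘ σ) 1 ∈ W' := by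
    intro σ
    induction σ using Equiv.Perm.swap_induction_on with
    | one =>
      intro c
      simp only [Equiv.Perm.coe_one, Function.comp_id, sub_self]
      exact W'.zero_mem
    | swap_mul τ x y _ ih =>
      intro c
      have h1 := hB c x y
      have h2 := ih (c ∘ Equiv.swap x y)
      have h3 := W'.add_mem h1 h2
      rw [sub_add_sub_cancel, Function.comp_assoc] at h3
      exact h3
  let r : ℕ → (S.carrier → Bool) := fun a =>
    if h : ∃ c : S.carrier → Bool, cnt c = a then h.choose else fun _ => true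
  have hr : ∀ c : S.carrier → Bool, cnt (r (cnt c)) = cnt c := by
    intro c
    have h : ∃ c' : S.carrier → Bool, cnt c' = cnt c := ⟨c, rfl⟩
    simp only [r, dif_pos h]
    exact h.choose_spec
  have hD : ∀ x : (S.carrier → Bool) →₀ k, x - Finsupp.mapDomain (r ∘ cnt) x ∈ W' := by
    intro x
    induction x using Finsupp.induction_linear with
    | zero => simp
    | add x y hx hy =>
      rw [Finsupp.mapDomain_add, add_sub_add_comm]
      exact W'.add_mem hx hy
    | single c a =>
      obtain ⟨σ, hσ⟩ := exists_perm c (r (cnt c)) (hr c).symm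
      have := W'.smul_mem a (hC σ c)
      rw [← hσ, smul_sub, Finsupp.smul_single, Finsupp.smul_single, smul_eq_mul, mul_one] at this
      rw [Finsupp.mapDomain_single]
      exact this
  rw [eq_top_iff]
  rintro ⟨x, hx⟩ -
  have h := hD x
  have h0 : Finsupp.mapDomain (cnt (S := S.carrier)) x = 0 := hx
  rw [Finsupp.mapDomain_comp, h0, Finsupp.mapDomain_zero, sub_zero] at h
  obtain ⟨y, hy, hyx⟩ := h
  have : y = ⟨x, hx⟩ := Subtype.ext hyx
  rwa [this] at hy

/-! ### Invariants -/

theorem card_cnt (n a : ℕ) : Fintype.card {c : Fin n → Bool // cnt c = a} = n.choose a := by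
  rw [← Fintype.card_fin n, ← Fintype.card_finset_len, Fintype.card_fin n]
  refine Fintype.card_congr ⟨fun c => ⟨Finset.univ.filter (fun i => c.1 i = true), ?_⟩,
    fun s => ⟨fun i => decide (i ∈ s.1), ?_⟩, ?_, ?_⟩
  · refine Eq.trans ?_ c.2
    rw [cnt, Nat.card_eq_fintype_card, Fintype.card_subtype]
  · refine Eq.trans ?_ s.2
    rw [cnt, Nat.card_eq_fintype_card, Fintype.card_subtype]
    congr 1
    ext i
    simp
  · rintro ⟨c, hc⟩
    apply Subtype.ext
    funext i
    simp
  · rintro ⟨s, hs⟩
    apply Subtype.ext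
    ext i
    simp

theorem cnt_le {n : ℕ} (c : Fin n → Bool) : cnt c ≤ n := by
  have := Finite.card_subtype_le (fun s : Fin n => c s = true)
  rwa [Nat.card_fin] at this

theorem mapDomain_cnt_apply {n : ℕ} (x : (Fin n → Bool) →₀ k) (a : ℕ) :
    Finsupp.mapDomain cnt x a = ∑ c : Fin n → Bool, if cnt c = a then x c else 0 := by
  rw [Finsupp.mapDomain, Finsupp.sum_fintype _ _ (by simp), Finsupp.finsetSum_apply]
  refine Finset.sum_congr rfl fun c _ => ?_
  rw [Finsupp.single_apply]

/-- The set of the `a ≤ n` for which `n choose a` vanishes in `k`. -/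
def Z (n : ℕ) : Type := {a : ℕ // a ≤ n ∧ ((n.choose a : ℕ) : k) = 0}

theorem push_autMor {d n : ℕ} (σ : Equiv.Perm (Fin n)) (c : Fin n → Bool) :
    push (autMor σ : std d n ⟶ std d n) c = c ∘ σ.symm := by
  funext i
  obtain ⟨j, rfl⟩ := σ.surjective i
  rw [Function.comp, Equiv.symm_apply_apply]
  exact push_range (autMor σ : std d n ⟶ std d n) c j

theorem mem_inv_iff {d n : ℕ} (x : K k (Fin n)) :
    (x : (KF k d).obj (std d n)) ∈ (repOf (KF k d) n).invariants ↔
      ∀ (σ : Equiv.Perm (Fin n)) (c : Fin n → Bool), x.1 (c ∘ σ) = x.1 c := by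
  constructor
  · intro h σ c
    have h1 : Finsupp.mapDomain (push (autMor σ : std d n ⟶ std d n)) x.1 = x.1 :=
      congrArg Subtype.val (h σ)
    have h2 : push (autMor σ : std d n ⟶ std d n) (c ∘ σ) = c := by
      rw [push_autMor, Function.comp_assoc, Equiv.self_comp_symm, Function.comp_id]
    have hinj : Function.Injective (push (autMor σ : std d n ⟶ std d n)) := by
      intro c c' hcc
      rw [push_autMor, push_autMor] at hcc
      have := congrArg (fun g => g ∘ σ) hcc
      simpa only [Function.comp_assoc, Equiv.symm_comp_self, Function.comp_id] using this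
    have h3 := DFunLike.congr_fun h1 c
    rw [← h3]
    conv_rhs => rw [← h2]
    rw [Finsupp.mapDomain_apply hinj]
  · intro h σ
    apply Subtype.ext
    change Finsupp.mapDomain (push (autMor σ : std d n ⟶ std d n)) x.1 = x.1
    have hinj : Function.Injective (push (autMor σ : std d n ⟶ std d n)) := by
      intro c c' hcc
      rw [push_autMor, push_autMor] at hcc
      have := congrArg (fun g => g ∘ σ) hcc
      simpa only [Function.comp_assoc, Equiv.symm_comp_self, Function.comp_id] using this
    ext c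
    have h2 : push (autMor σ : std d n ⟶ std d n) (c ∘ σ) = c := by
      rw [push_autMor, Function.comp_assoc, Equiv.self_comp_symm, Function.comp_id]
    conv_lhs => rw [← h2]
    rw [Finsupp.mapDomain_apply hinj, h σ c]

/-- The colouring of `Fin n` in which the first `a` points have the colour `true`. -/
def rc (n a : ℕ) : Fin n → Bool := fun i => decide (i.val < a)

theorem cnt_rc {n a : ℕ} (ha : a ≤ n) : cnt (rc n a) = a := by
  rw [cnt, Nat.card_eq_fintype_card, Fintype.card_subtype]
  simp only [rc, decide_eq_true_eq]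
  have : (Finset.univ.filter (fun i : Fin n => i.val < a)) =
      Finset.univ.map (Fin.castLEEmb ha) := by
    ext i
    simp only [Finset.mem_filter, Finset.mem_univ, true_and, Finset.mem_map, Fin.castLEEmb_apply]
    constructor
    · intro h
      exact ⟨⟨i.val, h⟩, Fin.ext rfl⟩
    · rintro ⟨j, rfl⟩
      exact j.2
  rw [this, Finset.card_map, Finset.card_univ, Fintype.card_fin]

/-- The element of `K` with the coefficients `u (cnt c)`. -/
noncomputable def ofFun {n : ℕ} (u : Z k n → k) : (Fin n → Bool) →₀ k :=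
  Finsupp.equivFunOnFinite.symm fun c =>
    if h : ((n.choose (cnt c) : ℕ) : k) = 0 then u ⟨cnt c, cnt_le c, h⟩ else 0

theorem ofFun_mem {n : ℕ} (u : Z k n → k) : ofFun k u ∈ K k (Fin n) := by
  simp only [K, LinearMap.mem_ker, Finsupp.lmapDomain_apply]
  ext a
  rw [mapDomain_cnt_apply, Finsupp.zero_apply]
  have h1 : ∀ c : Fin n → Bool, (if cnt c = a then ofFun k u c else 0) =
      if cnt c = a then (if h : a ≤ n ∧ ((n.choose a : ℕ) : k) = 0 then u ⟨a, h⟩ else 0) else 0 := by
    intro c
    split_ifs with h h'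
    · subst h
      simp only [ofFun, Finsupp.equivFunOnFinite_symm_apply_apply, dif_pos h'.2]
    · subst h
      have : ¬ ((n.choose (cnt c) : ℕ) : k) = 0 := fun h2 => h' ⟨cnt_le c, h2⟩
      simp only [ofFun, Finsupp.equivFunOnFinite_symm_apply_apply, dif_neg this]
    · rfl
  rw [Finset.sum_congr rfl fun c _ => h1 c, ← Finset.sum_filter, Finset.sum_const,
    ← Fintype.card_subtype, card_cnt, nsmul_eq_mul]
  split_ifs with h
  · rw [h.2, zero_mul]
  · rw [mul_zero]

/-- The invariants of `K_n` are the functions on `Z k n`. -/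
noncomputable def invEquiv (d n : ℕ) : (repOf (KF k d) n).invariants ≃ₗ[k] (Z k n → k) where
  toFun x := fun a => (show K k (Fin n) from x.1).1 (rc n a.1)
  map_add' x y := rfl
  map_smul' a x := rfl
  invFun u := ⟨(⟨ofFun k u, ofFun_mem k u⟩ : K k (Fin n)), by
    refine (mem_inv_iff k (d := d) (n := n) ⟨ofFun k u, ofFun_mem k u⟩).2 ?_
    intro σ c
    have hc : cnt (c ∘ σ) = cnt c := by
      unfold cnt
      exact Nat.card_congr (σ.subtypeEquiv fun a => Iff.rfl)
    simp only [ofFun, Finsupp.equivFunOnFinite_symm_apply_apply, hc]⟩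
  left_inv := by
    rintro ⟨x, hx⟩
    have hx' := (mem_inv_iff k (d := d) (n := n) x).1 hx
    have hconst : ∀ c c' : Fin n → Bool, cnt c = cnt c' →
        (show K k (Fin n) from x).1 c = (show K k (Fin n) from x).1 c' := by
      intro c c' h
      obtain ⟨σ, rfl⟩ := exists_perm c c' h
      exact (hx' σ c).symm
    apply Subtype.ext
    apply Subtype.ext
    change ofFun k (fun a => (show K k (Fin n) from x).1 (rc n a.1)) =
      (show K k (Fin n) from x).1
    ext c
    simp only [ofFun, Finsupp.equivFunOnFinite_symm_apply_apply]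
    split_ifs with h
    · exact hconst _ _ (cnt_rc (cnt_le c))
    · have hK : Finsupp.mapDomain cnt (show K k (Fin n) from x).1 (cnt c) = 0 := by
        have := (show K k (Fin n) from x).2
        simp only [K, LinearMap.mem_ker, Finsupp.lmapDomain_apply] at this
        rw [this, Finsupp.zero_apply]
      rw [mapDomain_cnt_apply] at hK
      have h1 : ∀ c' : Fin n → Bool,
          (if cnt c' = cnt c then (show K k (Fin n) from x).1 c' else 0) =
          if cnt c' = cnt c then (show K k (Fin n) from x).1 c else 0 := by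
        intro c'
        split_ifs with h'
        · exact hconst _ _ h'
        · rfl
      rw [Finset.sum_congr rfl fun c' _ => h1 c', ← Finset.sum_filter, Finset.sum_const,
        ← Fintype.card_subtype, card_cnt, nsmul_eq_mul] at hK
      exact ((mul_eq_zero.1 hK).resolve_left h).symm
  right_inv := by
    intro u
    funext a
    change ofFun k u (rc n a.1) = u a
    simp only [ofFun, Finsupp.equivFunOnFinite_symm_apply_apply, cnt_rc a.2.1, dif_pos a.2.2]
    rfl

theorem dimCoh_zero (p : ℕ) [CharP k p] (d n : ℕ) :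
    dimCoh (KF k d) 0 n = ((Finset.range (n + 1)).filter fun a => p ∣ n.choose a).card := by
  unfold dimCoh
  rw [LinearEquiv.finrank_eq (groupCohomology.H0Iso (Rep.of (repOf (KF k d) n))).toLinearEquiv]
  have h1 : Module.finrank k (repOf (KF k d) n).invariants =
      ((Finset.range (n + 1)).filter fun a => p ∣ n.choose a).card := by
    let e : Z k n ≃ ((Finset.range (n + 1)).filter fun a => p ∣ n.choose a) :=
      Equiv.subtypeEquivRight fun a => by
        rw [Finset.mem_filter, Finset.mem_range, Nat.lt_succ_iff, CharP.cast_eq_zero_iff k p]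
    have : Fintype (Z k n) := Fintype.ofEquiv _ e.symm
    rw [(invEquiv k d n).finrank_eq, Module.finrank_fintype_fun_eq_card, Fintype.card_congr e,
      Fintype.card_coe]
  exact h1

end Module

/-! ### Binomial coefficients modulo `p` -/

/-- The number of the `a ≤ n` such that `p` does not divide `n choose a`. -/
def G (p n : ℕ) : ℕ := ((Finset.range (n + 1)).filter fun a => ¬ p ∣ n.choose a).card

theorem not_dvd_choose_iff (p : ℕ) [hp : Fact p.Prime] (m n₀ b i : ℕ) (h0 : n₀ < p) (hi : i < p) :
    ¬ p ∣ (p * m + n₀).choose (p * b + i) ↔ i ≤ n₀ ∧ ¬ p ∣ m.choose b := by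
  have hpos := hp.out.pos
  have h := Choose.choose_modEq_choose_mod_mul_choose_div_nat (p := p) (n := p * m + n₀)
    (k := p * b + i)
  rw [Nat.mul_add_mod, Nat.mul_add_mod, Nat.mod_eq_of_lt h0, Nat.mod_eq_of_lt hi,
    Nat.mul_add_div hpos, Nat.mul_add_div hpos, Nat.div_eq_of_lt h0, Nat.div_eq_of_lt hi,
    Nat.add_zero, Nat.add_zero] at h
  rw [← Nat.modEq_zero_iff_dvd]
  have h2 : (p * m + n₀).choose (p * b + i) ≡ 0 [MOD p] ↔
      n₀.choose i * m.choose b ≡ 0 [MOD p] := ⟨fun h' => h.symm.trans h', fun h' => h.trans h'⟩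
  rw [h2, Nat.modEq_zero_iff_dvd, hp.out.dvd_mul, not_or]
  refine and_congr_left fun _ => ?_
  constructor
  · intro h3
    by_contra h4
    rw [Nat.choose_eq_zero_of_lt (by omega)] at h3
    exact h3 (dvd_zero p)
  · intro h3 h4
    have h5 : p ∣ n₀.factorial := by
      rw [← Nat.choose_mul_factorial_mul_factorial h3, mul_assoc]
      exact h4.mul_right _
    have := (hp.out.dvd_factorial).1 h5
    omega

theorem G_step (p : ℕ) [hp : Fact p.Prime] (m n₀ : ℕ) (h0 : n₀ < p) :
    G p (p * m + n₀) = (n₀ + 1) * G p m := by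
  have hpos := hp.out.pos
  unfold G
  rw [← Finset.card_range (n₀ + 1), ← Finset.card_product]
  refine Finset.card_nbij' (fun a => (a % p, a / p)) (fun x => p * x.2 + x.1) ?_ ?_ ?_ ?_
  · intro a ha
    simp only [Finset.coe_filter, Finset.mem_range, Set.mem_ofPred_eq, Finset.coe_product,
      Set.mem_prod, Finset.mem_coe] at ha ⊢
    have h := ha.2
    rw [← Nat.div_add_mod a p, not_dvd_choose_iff p m n₀ _ _ h0 (Nat.mod_lt _ hpos)] at h
    refine ⟨by omega, ?_, h.2⟩
    by_contra h3
    rw [Nat.choose_eq_zero_of_lt (by omega)] at h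
    exact h.2 (dvd_zero p)
  · rintro ⟨i, b⟩ hx
    simp only [Finset.coe_filter, Finset.mem_range, Set.mem_ofPred_eq, Finset.coe_product,
      Set.mem_prod, Finset.mem_coe] at hx ⊢
    refine ⟨?_, (not_dvd_choose_iff p m n₀ b i h0 (by omega)).2 ⟨by omega, hx.2.2⟩⟩
    have : p * b ≤ p * m := Nat.mul_le_mul_left _ (by omega)
    omega
  · intro a _
    exact Nat.div_add_mod a p
  · rintro ⟨i, b⟩ hx
    simp only [Finset.mem_coe, Finset.mem_product, Finset.mem_range] at hx
    simp only [Prod.mk.injEq]
    constructor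
    · rw [Nat.mul_add_mod, Nat.mod_eq_of_lt (by omega)]
    · rw [Nat.mul_add_div hpos, Nat.div_eq_of_lt (by omega), Nat.add_zero]

theorem G_zero (p : ℕ) [hp : Fact p.Prime] : G p 0 = 1 := by
  unfold G
  rw [Finset.card_eq_one]
  refine ⟨0, ?_⟩
  ext a
  simp only [zero_add, Finset.range_one, Finset.mem_filter, Finset.mem_singleton]
  constructor
  · exact fun h => h.1
  · rintro rfl
    refine ⟨rfl, ?_⟩
    rw [Nat.choose_self]
    exact fun h => hp.out.one_lt.ne' (Nat.dvd_one.1 h)

theorem G_pow (p : ℕ) [hp : Fact p.Prime] (r : ℕ) : ∀ m j : ℕ, j < p ^ r →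
    G p (p ^ r * m + j) = G p m * G p j := by
  induction r with
  | zero =>
    intro m j hj
    obtain rfl : j = 0 := by simpa using hj
    simp [G_zero]
  | succ r ih =>
    intro m j hj
    have hpos := hp.out.pos
    have h1 : p ^ (r + 1) * m + j = p * (p ^ r * m + j / p) + j % p := by
      have := Nat.div_add_mod j p
      rw [mul_add, ← mul_assoc, ← pow_succ', add_assoc, this]
    have h2 : j / p < p ^ r := by
      rw [Nat.div_lt_iff_lt_mul hpos, ← pow_succ]
      exact hj
    rw [h1, G_step p _ _ (Nat.mod_lt _ hpos), ih m _ h2]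
    conv_rhs => rw [← Nat.div_add_mod j p, G_step p _ _ (Nat.mod_lt _ hpos)]
    ring

theorem two_le_G (p : ℕ) [hp : Fact p.Prime] (n : ℕ) (hn : 1 ≤ n) : 2 ≤ G p n := by
  unfold G
  have h : ({0, n} : Finset ℕ) ⊆ (Finset.range (n + 1)).filter fun a => ¬ p ∣ n.choose a := by
    intro a ha
    simp only [Finset.mem_insert, Finset.mem_singleton] at ha
    have h1 : ¬ p ∣ 1 := fun h => hp.out.one_lt.ne' (Nat.dvd_one.1 h)
    rcases ha with rfl | rfl
    · simpa using h1
    · simpa using h1
  have h2 := Finset.card_le_card h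
  rwa [Finset.card_pair (by omega)] at h2

theorem G_add (p n : ℕ) :
    ((Finset.range (n + 1)).filter fun a => p ∣ n.choose a).card + G p n = n + 1 := by
  unfold G
  rw [Finset.card_filter_add_card_filter_not, Finset.card_range]

theorem not_quasi (p : ℕ) [hp : Fact p.Prime] (f : ℕ → ℕ)
    (hf : ∀ n, f n = ((Finset.range (n + 1)).filter fun a => p ∣ n.choose a).card) :
    ¬ EventuallyQuasiPolynomial f := by
  rintro ⟨N, q, n₀, hN, h⟩
  have hfn : ∀ n, (f n : ℚ) = n + 1 - G p n := by
    intro n
    have h1 := G_add p n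
    rw [← hf] at h1
    have h2 : ((f n : ℕ) : ℚ) + (G p n : ℕ) = (n : ℕ) + 1 := by exact_mod_cast h1
    linarith
  have hlt : ∀ r, r < p ^ r := fun r => Nat.lt_pow_self hp.out.one_lt
  have hval : ∀ r, n₀ ≤ r → (q 0).eval ((p ^ r * N : ℕ) : ℚ) =
      ((p ^ r * N : ℕ) : ℚ) + 1 - G p N := by
    intro r hr
    have h1 : n₀ ≤ p ^ r * N := by
      have := hlt r
      have := Nat.le_mul_of_pos_right (p ^ r) (show 0 < N by omega)
      omega
    have h2 := h (p ^ r * N) h1
    rw [Nat.mul_mod_left, hfn] at h2
    rw [← h2]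
    have h3 := G_pow p r N 0 (Nat.pow_pos hp.out.pos)
    rw [Nat.add_zero, G_zero, mul_one] at h3
    rw [h3]
  have hq : q 0 = Polynomial.X + Polynomial.C (1 - (G p N : ℚ)) := by
    refine Polynomial.eq_of_infinite_eval_eq _ _ ?_
    refine Set.infinite_of_injective_forall_mem (f := fun r : ℕ => ((p ^ (n₀ + r) * N : ℕ) : ℚ))
      ?_ ?_
    · intro a b hab
      have h1 : p ^ (n₀ + a) * N = p ^ (n₀ + b) * N := Nat.cast_injective (R := ℚ) hab
      have h2 := Nat.eq_of_mul_eq_mul_right (by omega) h1
      have h3 := Nat.pow_right_injective hp.out.two_le h2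
      omega
    · intro r
      simp only [Set.mem_ofPred_eq, Polynomial.eval_add, Polynomial.eval_X, Polynomial.eval_C]
      rw [hval (n₀ + r) (by omega)]
      ring
  let r := n₀ + N
  have hr : N < p ^ r := lt_of_le_of_lt (by omega) (hlt r)
  have h1 : n₀ ≤ p ^ r * N + N := by
    have h3 := hlt r
    have h4 := Nat.le_mul_of_pos_right (p ^ r) (show 0 < N by omega)
    have : n₀ ≤ r := by omega
    omega
  have h2 := h (p ^ r * N + N) h1
  have h3 : (p ^ r * N + N) % N = 0 := by
    rw [Nat.add_mod_right, Nat.mul_mod_left]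
  rw [h3, hfn, hq, G_pow p r N N hr, Polynomial.eval_add, Polynomial.eval_X,
    Polynomial.eval_C] at h2
  have h4 : (G p N : ℚ) * G p N = G p N := by
    push_cast at h2
    linarith
  have h5 : G p N * G p N = G p N := by exact_mod_cast h4
  have h6 := two_le_G p N hN
  nlinarith

/-- For every field `k` of characteristic `p > 0` and every `d ≥ 2` there is a finitely generated
`FI_d`-module `V` over `k` such that `dim H^0(S_n, V_n)` is, for every `n`, the number of `a ≤ n`
for which `p` divides `n choose a`, and such that this function of `n` does not agree for large `n`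
with any quasi-polynomial. -/
theorem result (k : Type) [Field k] (p : ℕ) [Fact p.Prime] [CharP k p] (d : ℕ) (hd : 2 ≤ d) :
    ∃ V : FI d ⥤ ModuleCat.{0} k, IsFinGen V ∧
      (∀ n : ℕ, dimCoh V 0 n = ((Finset.range (n + 1)).filter fun a => p ∣ n.choose a).card) ∧
      ¬ EventuallyQuasiPolynomial (fun n => dimCoh V 0 n) :=
  ⟨KF k d, finGen k hd, dimCoh_zero k p d, not_quasi p _ (dimCoh_zero k p d)⟩

end Pool.Agent.Results.MP_93a4b1_al.NotQuasiPolynomial
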